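import Pool.Agent.H.MP_c61c44_al.B

set_option autoImplicit false

namespace Pool.Agent.Results.MP_c61c44_al.No

open IsLocalRing

variable {R : Type} [CommRing R] [IsLocalRing R]

/-- `J` is weakly `m`-full -/
def WeaklyFull (J : Ideal R) : Prop :=
  (J * maximalIdeal R).colon (maximalIdeal R : Set R) = J

/-- `I` is a reduction of the maximal ideal -/
def IsReduction (I : Ideal R) : Prop :=
  I ≤ maximalIdeal R ∧ ∃ r : ℕ, I * maximalIdeal R ^ r = maximalIdeal R ^ (r + 1)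

theorem result : ∃ (R : Type) (_ : CommRing R) (_ : IsNoetherianRing R) (_ : IsLocalRing R),
    Infinite (ResidueField R) ∧ ringKrullDim R = 2 ∧
    (∃ x ∈ maximalIdeal R, ∃ y ∈ maximalIdeal R, RingTheory.Sequence.IsRegular R [x, y]) ∧
    ∃ I : Ideal R, Minimal IsReduction I ∧
      IsLeast {n : ℕ | I * maximalIdeal R ^ n = maximalIdeal R ^ (n + 1)} 5 ∧
      ∀ t : ℕ, (∀ k ≥ t, WeaklyFull (I * maximalIdeal R ^ k)) → 5 < t := by
  obtain ⟨x, y, hn, h1, h2, h3, h4⟩ := Dao.base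
  have hI := Dao.I_le hn (p := x ^ 3) (q := y ^ 3)
  have h5 := Dao.red5 hn (p := x ^ 3) (q := y ^ 3)
  refine ⟨Dao.T (x ^ 3) (y ^ 3), inferInstance, inferInstance, inferInstance, ?_,
    Dao.dim2 hn h1 h2, ⟨_, hI (Ideal.subset_span (Or.inl rfl)), _,
      hI (Ideal.subset_span (Or.inr rfl)), Dao.reg hn h1 h2⟩, Ideal.span {Dao.sc x, Dao.sc y},
    ⟨⟨hI, 5, h5⟩, fun J ⟨_, k, hk⟩ hJ => Dao.min_red (Dao.dim2 hn h1 h2) hI hJ hk⟩,
    ⟨h5, fun n h => ?_⟩, fun t ht => lt_of_not_ge fun h => ?_⟩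
  · exact Infinite.of_injective _ (((residue _).comp Dao.sc).comp
      (algebraMap ℚ (PowerSeries (PowerSeries ℚ)))).injective
  · by_contra h6
    obtain ⟨d, hd⟩ : ∃ d, 4 = n + d := ⟨4 - n, by omega⟩
    refine Dao.not_red4 hn h3 ?_
    rw [show 5 = n + 1 + d by omega, hd, pow_add, ← mul_assoc, h, ← pow_add]
  · obtain ⟨s, h6, h7⟩ := Dao.not_full hn h4
    have h := ht 5 h
    rw [WeaklyFull, h5, ← pow_succ] at h
    exact h6 (h ▸ Submodule.mem_colon.2 h7)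

end Pool.Agent.Results.MP_c61c44_al.No
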